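import Pool.Agent.Work.MP_f5ed0a_al.Main

set_option autoImplicit false

universe u

namespace Pool.Agent.Results.MP_f5ed0a_al.CubePower

open Pool.Agent.Work.MP_f5ed0a_al

/-- For every `n ≥ 4` the variety of all associative rings satisfying `x ^ 3 = x ^ n` satisfies
the minimum condition on subvarieties. -/
theorem result (n : ℕ) (hn : 4 ≤ n) : MinimumCondition.{u} (cubeVariety n) :=
  main hn

end Pool.Agent.Results.MP_f5ed0a_al.CubePower
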